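import Pool.Agent.X96.LT.Ineq

/-!
In dimension two, for `β = γ / 4`, the local-time variational problem has inequivalent maximisers:
the uniform distribution on the four corners of a unit square, and the average of two such
distributions for adjacent squares (six sites). Both have the value `γ / 16`.
-/

set_option autoImplicit false

open Filter Topology

namespace Pool.Agent.Results.MP_840660_pr.TwoMaximisers

/-- The lattice `ℤ^d`. -/
abbrev Lat (d : ℕ) := Fin d → ℤ

/-- The `ℓ¹` distance of two sites; it is `1` exactly for nearest neighbours. -/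
def dist1 {d : ℕ} (x y : Lat d) : ℤ := ∑ i, |x i - y i|

/-- The matrix `F`: `-β` on the diagonal, `γ / (2 d)` for nearest neighbours. -/
noncomputable def F (d : ℕ) (β γ : ℝ) (x y : Lat d) : ℝ :=
  if x = y then -β else if dist1 x y = 1 then γ / (2 * d) else 0

/-- The quadratic form `⟨f, F f⟩`. -/
noncomputable def form (d : ℕ) (β γ : ℝ) (f : Lat d → ℝ) : ℝ :=
  ∑' q : Lat d × Lat d, f q.1 * F d β γ q.1 q.2 * f q.2

/-- `w 0, ..., w n` is an `n`-step path. -/
def IsPath {d : ℕ} (n : ℕ) (w : ℕ → Lat d) : Prop := ∀ i < n, dist1 (w i) (w (i + 1)) = 1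

/-- The endpoint-corrected local time of the path `w 0, ..., w n` at `x`. -/
noncomputable def localTime {d : ℕ} (n : ℕ) (w : ℕ → Lat d) (x : Lat d) : ℝ :=
  (((Finset.range (n + 1)).filter fun i => w i = x).card : ℝ)
    - (if w 0 = x then 1 / 2 else 0) - (if w n = x then 1 / 2 else 0)

/-- The set `𝓕` of the probability measures on `ℤ^d` which are pointwise limits of the normalised
local times of paths the lengths of which tend to infinity. -/
def InF {d : ℕ} (f : Lat d → ℝ) : Prop :=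
  (∀ x, 0 ≤ f x) ∧ HasSum f 1 ∧ ∃ (n : ℕ → ℕ) (w : ℕ → ℕ → Lat d), Tendsto n atTop atTop ∧
    (∀ k, IsPath (n k) (w k)) ∧
    ∀ x, Tendsto (fun k => localTime (n k) (w k) x / n k) atTop (𝓝 (f x))

/-- `f` maximises `⟨f, F f⟩` over `𝓕`. -/
def IsMaximiser (d : ℕ) (β γ : ℝ) (f : Lat d → ℝ) : Prop :=
  InF f ∧ ∀ g, InF g → form d β γ g ≤ form d β γ f

/-- The isometries of the lattice: signed permutations of the coordinates and translations. -/
def IsIsometry {d : ℕ} (φ : Lat d → Lat d) : Prop :=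
  ∃ (π : Equiv.Perm (Fin d)) (s : Fin d → ℤ) (z : Lat d), (∀ i, s i = 1 ∨ s i = -1) ∧
    ∀ x i, φ x i = s i * x (π i) + z i

/-! ### closed walks -/

theorem hs_ind {α : Type} [DecidableEq α] (a : α) (r : ℝ) :
    HasSum (fun x => if a = x then r else 0) r := by
  simpa [eq_comm] using hasSum_ite_eq a r

/-- the occupation measure of a closed walk of length `p` -/
noncomputable def occ {d : ℕ} (p : ℕ) (c : ℕ → Lat d) (x : Lat d) : ℝ :=
  ∑ i ∈ Finset.range p, if c i = x then (1 / p : ℝ) else 0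

theorem occ_nonneg {d : ℕ} (p : ℕ) (c : ℕ → Lat d) (x : Lat d) : 0 ≤ occ p c x := by
  unfold occ
  refine Finset.sum_nonneg fun i _ => ?_
  split_ifs <;> positivity

theorem occ_hasSum {d : ℕ} {p : ℕ} (hp : 0 < p) (c : ℕ → Lat d) : HasSum (occ p c) 1 := by
  have h : HasSum (occ p c) (∑ i ∈ Finset.range p, (1 / p : ℝ)) := by
    unfold occ
    exact hasSum_sum fun i _ => hs_ind (c i) _
  have hp' : (p : ℝ) ≠ 0 := by positivity
  rw [Finset.sum_const, Finset.card_range, nsmul_eq_mul, mul_one_div_cancel hp'] at h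
  exact h

theorem occ_form {d : ℕ} (p : ℕ) (c : ℕ → Lat d) (β γ : ℝ) :
    form d β γ (occ p c) = (1 / p : ℝ) ^ 2 *
      ∑ i ∈ Finset.range p, ∑ j ∈ Finset.range p, F d β γ (c i) (c j) := by
  have e : (fun q : Lat d × Lat d => occ p c q.1 * F d β γ q.1 q.2 * occ p c q.2)
      = fun q => ∑ i ∈ Finset.range p, ∑ j ∈ Finset.range p,
        (if c i = q.1 then (1 / p : ℝ) else 0) * F d β γ q.1 q.2 *
          (if c j = q.2 then (1 / p : ℝ) else 0) := by
    funext q
    unfold occ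
    rw [Finset.sum_mul, Finset.sum_mul]
    refine Finset.sum_congr rfl fun i _ => ?_
    rw [Finset.mul_sum]
  have h : HasSum (fun q : Lat d × Lat d => occ p c q.1 * F d β γ q.1 q.2 * occ p c q.2)
      (∑ i ∈ Finset.range p, ∑ j ∈ Finset.range p, (1 / p : ℝ) * F d β γ (c i) (c j) * (1 / p)) := by
    rw [e]
    refine hasSum_sum fun i _ => hasSum_sum fun j _ => ?_
    have h1 := hasSum_single (f := fun q : Lat d × Lat d =>
      (if c i = q.1 then (1 / p : ℝ) else 0) * F d β γ q.1 q.2 *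
          (if c j = q.2 then (1 / p : ℝ) else 0)) (c i, c j) (by
        rintro ⟨x, y⟩ hne
        by_cases h2 : c i = x
        · have h3 : c j ≠ y := by
            rintro rfl
            exact hne (by rw [h2])
          simp [h3]
        · simp [h2])
    simpa using h1
  unfold form
  rw [h.tsum_eq, Finset.mul_sum]
  refine Finset.sum_congr rfl fun i _ => ?_
  rw [Finset.mul_sum]
  refine Finset.sum_congr rfl fun j _ => ?_
  ring

theorem card_eq {d : ℕ} (n : ℕ) (w : ℕ → Lat d) (x : Lat d) :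
    (((Finset.range n).filter fun i => w i = x).card : ℝ)
      = ∑ i ∈ Finset.range n, if w i = x then (1 : ℝ) else 0 := by
  rw [Finset.sum_boole]

theorem per_mul {d : ℕ} {p : ℕ} {c : ℕ → Lat d} (hper : ∀ i, c (i + p) = c i) (k i : ℕ) :
    c (k * p + i) = c i := by
  induction k with
  | zero => simp
  | succ k ih =>
    have : (k + 1) * p + i = (k * p + i) + p := by ring
    rw [this, hper, ih]

theorem sum_per {d : ℕ} {p : ℕ} {c : ℕ → Lat d} (hper : ∀ i, c (i + p) = c i) (x : Lat d)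
    (k : ℕ) : ∑ i ∈ Finset.range (k * p), (if c i = x then (1 : ℝ) else 0)
      = k * ∑ i ∈ Finset.range p, if c i = x then (1 : ℝ) else 0 := by
  induction k with
  | zero => simp
  | succ k ih =>
    have : (k + 1) * p = k * p + p := by ring
    rw [this, Finset.sum_range_add, ih]
    simp only [per_mul hper]
    push_cast
    ring

theorem occ_inF {d : ℕ} {p : ℕ} (hp : 0 < p) {c : ℕ → Lat d}
    (hstep : ∀ i, dist1 (c i) (c (i + 1)) = 1) (hper : ∀ i, c (i + p) = c i) :
    InF (occ p c) := by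
  refine ⟨occ_nonneg p c, occ_hasSum hp c, fun k => (k + 1) * p, fun _ => c, ?_,
    fun k i _ => hstep i, fun x => ?_⟩
  · refine tendsto_atTop_mono (fun k => ?_) (tendsto_id (α := ℕ))
    show k ≤ (k + 1) * p
    nlinarith
  · refine Tendsto.congr (f₁ := fun _ => occ p c x) (fun k => ?_) tendsto_const_nhds
    have h0 : c ((k + 1) * p) = c 0 := by
      have := per_mul hper (k + 1) 0
      simpa using this
    have hk : ((k : ℝ) + 1) ≠ 0 := by positivity
    have hp' : (p : ℝ) ≠ 0 := by positivity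
    show occ p c x = localTime ((k + 1) * p) c x / (((k + 1) * p : ℕ) : ℝ)
    unfold localTime
    rw [card_eq, Finset.sum_range_succ, sum_per hper, h0]
    have e : occ p c x = (1 / p : ℝ) * ∑ i ∈ Finset.range p, if c i = x then (1 : ℝ) else 0 := by
      unfold occ
      rw [Finset.mul_sum]
      refine Finset.sum_congr rfl fun i _ => ?_
      split_ifs <;> ring
    rw [e]
    push_cast
    have e2 : ((k : ℝ) + 1) * (∑ i ∈ Finset.range p, if c i = x then (1 : ℝ) else 0)
        + (if c 0 = x then (1 : ℝ) else 0) - (if c 0 = x then (1 / 2 : ℝ) else 0)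
        - (if c 0 = x then (1 / 2 : ℝ) else 0)
        = ((k : ℝ) + 1) * ∑ i ∈ Finset.range p, if c i = x then (1 : ℝ) else 0 := by
      split_ifs <;> ring
    rw [e2]
    field_simp

/-! ### parity -/

/-- the sites of `S` of the parity `ε` -/
def cls (S : Finset (Lat 2)) (ε : ℤ) : Finset (Lat 2) := S.filter fun x => (x 0 + x 1) % 2 = ε

theorem step_par {x y : Lat 2} (h : dist1 x y = 1) : (x 0 + x 1) % 2 ≠ (y 0 + y 1) % 2 := by
  unfold dist1 at h
  rw [Fin.sum_univ_two] at h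
  rcases abs_cases (x 0 - y 0) with h1 | h1 <;> rcases abs_cases (x 1 - y 1) with h2 | h2 <;>
    omega

theorem localTime_eq {d : ℕ} (n : ℕ) (w : ℕ → Lat d) (x : Lat d) : localTime n w x
    = ∑ i ∈ Finset.range n, ((if w i = x then (1 / 2 : ℝ) else 0)
      + (if w (i + 1) = x then (1 / 2 : ℝ) else 0)) := by
  unfold localTime
  rw [card_eq, Finset.sum_add_distrib]
  have h1 := Finset.sum_range_succ (fun i => if w i = x then (1 : ℝ) else 0) n
  have h2 := Finset.sum_range_succ' (fun i => if w i = x then (1 : ℝ) else 0) n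
  have e1 : ∑ i ∈ Finset.range n, (if w i = x then (1 / 2 : ℝ) else 0)
      = (1 / 2) * ∑ i ∈ Finset.range n, if w i = x then (1 : ℝ) else 0 := by
    rw [Finset.mul_sum]
    refine Finset.sum_congr rfl fun i _ => ?_
    split_ifs <;> ring
  have e2 : ∑ i ∈ Finset.range n, (if w (i + 1) = x then (1 / 2 : ℝ) else 0)
      = (1 / 2) * ∑ i ∈ Finset.range n, if w (i + 1) = x then (1 : ℝ) else 0 := by
    rw [Finset.mul_sum]
    refine Finset.sum_congr rfl fun i _ => ?_
    split_ifs <;> ring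
  have e3 : (if w 0 = x then (1 / 2 : ℝ) else 0) = (1 / 2) * if w 0 = x then (1 : ℝ) else 0 := by
    split_ifs <;> ring
  have e4 : (if w n = x then (1 / 2 : ℝ) else 0) = (1 / 2) * if w n = x then (1 : ℝ) else 0 := by
    split_ifs <;> ring
  rw [e1, e2, e3, e4]
  linarith

theorem half_mass {n : ℕ} {w : ℕ → Lat 2} (hw : IsPath n w) (S : Finset (Lat 2)) (ε : ℤ) :
    ∑ x ∈ cls S ε, localTime n w x ≤ n / 2 := by
  simp only [localTime_eq]
  rw [Finset.sum_comm]
  have h : ∀ i ∈ Finset.range n, ∑ x ∈ cls S ε, ((if w i = x then (1 / 2 : ℝ) else 0)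
      + (if w (i + 1) = x then (1 / 2 : ℝ) else 0)) ≤ 1 / 2 := by
    intro i hi
    rw [Finset.sum_add_distrib, Finset.sum_ite_eq, Finset.sum_ite_eq]
    have hp := step_par (hw i (Finset.mem_range.mp hi))
    by_cases h1 : w i ∈ cls S ε
    · have h2 : w (i + 1) ∉ cls S ε := by
        intro h2
        apply hp
        rw [(Finset.mem_filter.mp h1).2, (Finset.mem_filter.mp h2).2]
      rw [if_pos h1, if_neg h2]
      norm_num
    · rw [if_neg h1]
      split_ifs <;> norm_num
  refine (Finset.sum_le_sum h).trans ?_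
  rw [Finset.sum_const, Finset.card_range, nsmul_eq_mul]
  apply le_of_eq
  ring

theorem inF_half {f : Lat 2 → ℝ} (hf : InF f) (S : Finset (Lat 2)) (ε : ℤ) :
    ∑ x ∈ cls S ε, f x ≤ 1 / 2 := by
  obtain ⟨_, _, n, w, hn, hw, hlim⟩ := hf
  have h1 : Tendsto (fun k => ∑ x ∈ cls S ε, localTime (n k) (w k) x / n k) atTop
      (𝓝 (∑ x ∈ cls S ε, f x)) := tendsto_finset_sum _ fun x _ => hlim x
  refine le_of_tendsto h1 ?_
  filter_upwards [hn.eventually_gt_atTop 0] with k hk
  rw [← Finset.sum_div, div_le_iff₀ (by exact_mod_cast hk)]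
  have := half_mass (hw k) S ε
  linarith

/-! ### the upper bound -/

open Pool.Agent.X96.LT in
theorem F_eq (γ : ℝ) (a b : ℤ × ℤ) :
    F 2 (γ / 4) γ ((finTwoArrowEquiv ℤ).symm a) ((finTwoArrowEquiv ℤ).symm b)
      = (if a = b then -(γ / 4) else 0) + (if b ∈ nb a then γ / 4 else 0) := by
  have hd : dist1 ((finTwoArrowEquiv ℤ).symm a) ((finTwoArrowEquiv ℤ).symm b)
      = |a.1 - b.1| + |a.2 - b.2| := by
    unfold dist1
    rw [Fin.sum_univ_two]
    rfl
  have hn : |a.1 - b.1| + |a.2 - b.2| = 1 ↔ b ∈ nb a := by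
    rw [mem_nb]
    rcases abs_cases (a.1 - b.1) with h1 | h1 <;> rcases abs_cases (a.2 - b.2) with h2 | h2 <;>
      omega
  unfold F
  rw [hd]
  by_cases h1 : a = b
  · subst h1
    have h2 : a ∉ nb a := by
      rw [← hn]
      simp
    rw [if_pos rfl, if_pos rfl, if_neg h2, add_zero]
  · have h2 : (finTwoArrowEquiv ℤ).symm a ≠ (finTwoArrowEquiv ℤ).symm b := fun h =>
      h1 ((finTwoArrowEquiv ℤ).symm.injective h)
    rw [if_neg h2, if_neg h1, zero_add]
    by_cases h3 : b ∈ nb a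
    · rw [if_pos (hn.mpr h3), if_pos h3]
      norm_num
    · rw [if_neg (fun h => h3 (hn.mp h)), if_neg h3]

open Pool.Agent.X96.LT in
theorem part_le {γ : ℝ} (hγ : 0 < γ) {f : Lat 2 → ℝ} (f0 : ∀ x, 0 ≤ f x)
    (hb : ∀ (S : Finset (Lat 2)) (ε : ℤ), ∑ x ∈ cls S ε, f x ≤ 1 / 2) (S : Finset (Lat 2)) :
    ∑ q ∈ S ×ˢ S, f q.1 * F 2 (γ / 4) γ q.1 q.2 * f q.2 ≤ γ / 16 := by
  classical
  set e := finTwoArrowEquiv ℤ with he
  set S' := S.map e.toEmbedding with hS'
  set g : ℤ × ℤ → ℝ := fun z => if z ∈ S' then f (e.symm z) else 0 with hg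
  have g0 : ∀ z, 0 ≤ g z := by
    intro z
    simp only [hg]
    split_ifs
    · exact f0 _
    · exact le_rfl
  have gS : ∀ z, z ∉ S' → g z = 0 := fun z hz => by simp only [hg, if_neg hz]
  have gin : ∀ z ∈ S', g z = f (e.symm z) := fun z hz => by simp only [hg, if_pos hz]
  have tr : ∀ φ : Lat 2 → ℝ, ∑ x ∈ S, φ x = ∑ a ∈ S', φ (e.symm a) := by
    intro φ
    rw [hS', Finset.sum_map]
    refine Finset.sum_congr rfl fun x _ => ?_
    simp
  have key : ∑ q ∈ S ×ˢ S, f q.1 * F 2 (γ / 4) γ q.1 q.2 * f q.2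
      = (γ / 4) * ((∑ a ∈ S', g a * hh g a) - ∑ a ∈ S', g a ^ 2) := by
    rw [Finset.sum_product, tr, mul_sub, Finset.mul_sum, Finset.mul_sum, ← Finset.sum_sub_distrib]
    refine Finset.sum_congr rfl fun a ha => ?_
    rw [tr]
    have h1 : ∑ b ∈ S', f (e.symm a) * F 2 (γ / 4) γ (e.symm a) (e.symm b) * f (e.symm b)
        = ∑ b ∈ S', (if a = b then g a * -(γ / 4) * g b else 0)
          + ∑ b ∈ S', (if b ∈ nb a then g a * (γ / 4) * g b else 0) := by
      rw [← Finset.sum_add_distrib]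
      refine Finset.sum_congr rfl fun b hb' => ?_
      rw [he, F_eq, ← he, ← gin a ha, ← gin b hb']
      split_ifs <;> ring
    rw [h1, Finset.sum_ite_eq, if_pos ha, ← Finset.sum_filter]
    have h2 : ∑ b ∈ S'.filter (fun b => b ∈ nb a), g a * (γ / 4) * g b
        = g a * (γ / 4) * hh g a := by
      rw [← Finset.mul_sum, ← sum_nb]
      congr 1
      have h3 : S'.filter (fun b => b ∈ nb a) = (nb a).filter (fun b => b ∈ S') := by
        ext b
        simp only [Finset.mem_filter]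
        tauto
      rw [h3, Finset.sum_filter]
      refine Finset.sum_congr rfl fun b _ => ?_
      by_cases h : b ∈ S'
      · rw [if_pos h]
      · rw [if_neg h, gS b h]
    rw [h2]
    ring
  rw [key]
  have h1 := ineq g0 gS
  have hm : ∀ ε : ℤ, ∑ x ∈ S'.filter (fun x => (x.1 + x.2) % 2 = ε), g x ≤ 1 / 2 := by
    intro ε
    refine le_trans (le_of_eq ?_) (hb S ε)
    have h2 : S'.filter (fun x => (x.1 + x.2) % 2 = ε) = (cls S ε).map e.toEmbedding := by
      rw [hS', Finset.filter_map]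
      rfl
    rw [h2, Finset.sum_map]
    refine Finset.sum_congr rfl fun x hx => ?_
    have h3 : e.toEmbedding x ∈ S' := Finset.mem_map_of_mem _ (Finset.mem_filter.mp hx).1
    rw [gin _ h3]
    simp
  have hn : ∀ ε : ℤ, 0 ≤ ∑ x ∈ S'.filter (fun x => (x.1 + x.2) % 2 = ε), g x := fun ε =>
    Finset.sum_nonneg fun x _ => g0 x
  have h2 : (∑ x ∈ S'.filter (fun x => (x.1 + x.2) % 2 = 0), g x)
      * (∑ x ∈ S'.filter (fun x => (x.1 + x.2) % 2 = 1), g x) ≤ 1 / 2 * (1 / 2) :=
    mul_le_mul (hm 0) (hm 1) (hn 1) (by norm_num)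
  have h3 : (∑ a ∈ S', g a * hh g a) - ∑ a ∈ S', g a ^ 2 ≤ 1 / 4 := by linarith
  nlinarith

theorem form_le {γ : ℝ} (hγ : 0 < γ) {f : Lat 2 → ℝ} (hf : InF f) :
    form 2 (γ / 4) γ f ≤ γ / 16 := by
  classical
  unfold form
  by_cases hs : Summable fun q : Lat 2 × Lat 2 => f q.1 * F 2 (γ / 4) γ q.1 q.2 * f q.2
  · have h1 : Tendsto (fun T : Finset (Lat 2 × Lat 2) =>
        ∑ q ∈ T, f q.1 * F 2 (γ / 4) γ q.1 q.2 * f q.2) atTop
        (𝓝 (∑' q : Lat 2 × Lat 2, f q.1 * F 2 (γ / 4) γ q.1 q.2 * f q.2)) := by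
      have := hs.hasSum
      simpa [HasSum] using this
    have h2 : Tendsto (fun S : Finset (Lat 2) => S ×ˢ S) atTop atTop := by
      rw [tendsto_atTop]
      intro T
      filter_upwards [eventually_ge_atTop (T.image Prod.fst ∪ T.image Prod.snd)] with S hS
      intro q hq
      rw [Finset.mem_product]
      exact ⟨hS (Finset.mem_union_left _ (Finset.mem_image_of_mem _ hq)),
        hS (Finset.mem_union_right _ (Finset.mem_image_of_mem _ hq))⟩
    refine le_of_tendsto (h1.comp h2) (Eventually.of_forall fun S => ?_)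
    exact part_le hγ hf.1 (fun S ε => inF_half hf S ε) S
  · rw [tsum_eq_zero_of_not_summable hs]
    positivity

/-! ### the two maximisers -/

/-- the walk around a unit square -/
def sqw (i : ℕ) : Lat 2 :=
  match i % 4 with
  | 0 => ![0, 0]
  | 1 => ![1, 0]
  | 2 => ![1, 1]
  | _ => ![0, 1]

/-- the walk around two adjacent unit squares -/
def rcw (i : ℕ) : Lat 2 :=
  match i % 8 with
  | 0 => ![1, 0]
  | 1 => ![0, 0]
  | 2 => ![0, 1]
  | 3 => ![1, 1]
  | 4 => ![1, 0]
  | 5 => ![2, 0]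
  | 6 => ![2, 1]
  | _ => ![1, 1]

theorem sqw_per (i : ℕ) : sqw (i + 4) = sqw i := by
  unfold sqw
  rw [Nat.add_mod_right]

theorem rcw_per (i : ℕ) : rcw (i + 8) = rcw i := by
  unfold rcw
  rw [Nat.add_mod_right]

theorem sqw_step (i : ℕ) : dist1 (sqw i) (sqw (i + 1)) = 1 := by
  have h1 : sqw i = sqw (i % 4) := by unfold sqw; rw [Nat.mod_mod]
  have h2 : sqw (i + 1) = sqw (i % 4 + 1) := by unfold sqw; rw [Nat.mod_add_mod]
  rw [h1, h2]
  have h3 : i % 4 < 4 := Nat.mod_lt _ (by norm_num)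
  have h4 : ∀ j : ℕ, j < 4 → dist1 (sqw j) (sqw (j + 1)) = 1 := by decide
  exact h4 _ h3

theorem rcw_step (i : ℕ) : dist1 (rcw i) (rcw (i + 1)) = 1 := by
  have h1 : rcw i = rcw (i % 8) := by unfold rcw; rw [Nat.mod_mod]
  have h2 : rcw (i + 1) = rcw (i % 8 + 1) := by unfold rcw; rw [Nat.mod_add_mod]
  rw [h1, h2]
  have h3 : i % 8 < 8 := Nat.mod_lt _ (by norm_num)
  have h4 : ∀ j : ℕ, j < 8 → dist1 (rcw j) (rcw (j + 1)) = 1 := by decide
  exact h4 _ h3

theorem sum_F (γ : ℝ) (p : ℕ) (c : ℕ → Lat 2) :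
    ∑ i ∈ Finset.range p, ∑ j ∈ Finset.range p, F 2 (γ / 4) γ (c i) (c j)
      = γ / 4 * ((∑ i ∈ Finset.range p, ∑ j ∈ Finset.range p,
        if c i = c j then (-1 : ℤ) else if dist1 (c i) (c j) = 1 then 1 else 0 : ℤ) : ℝ) := by
  push_cast
  rw [Finset.mul_sum]
  refine Finset.sum_congr rfl fun i _ => ?_
  rw [Finset.mul_sum]
  refine Finset.sum_congr rfl fun j _ => ?_
  unfold F
  split_ifs <;> norm_num

theorem sq_form (γ : ℝ) : form 2 (γ / 4) γ (occ 4 sqw) = γ / 16 := by
  rw [occ_form, sum_F]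
  have h : (∑ i ∈ Finset.range 4, ∑ j ∈ Finset.range 4,
        if sqw i = sqw j then (-1 : ℤ) else if dist1 (sqw i) (sqw j) = 1 then 1 else 0 : ℤ) = 4 := by
    decide
  rw [h]
  norm_num
  ring

theorem rc_form (γ : ℝ) : form 2 (γ / 4) γ (occ 8 rcw) = γ / 16 := by
  rw [occ_form, sum_F]
  have h : (∑ i ∈ Finset.range 8, ∑ j ∈ Finset.range 8,
        if rcw i = rcw j then (-1 : ℤ) else if dist1 (rcw i) (rcw j) = 1 then 1 else 0 : ℤ) = 16 := by
    decide +kernel
  rw [h]
  norm_num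
  ring

theorem rc_val : occ 8 rcw ![0, 0] = 1 / 8 := by
  have h : occ 8 rcw ![0, 0] = (1 / 8 : ℝ) * ((∑ i ∈ Finset.range 8,
      if rcw i = ![0, 0] then (1 : ℤ) else 0 : ℤ) : ℝ) := by
    unfold occ
    push_cast
    rw [Finset.mul_sum]
    refine Finset.sum_congr rfl fun i _ => ?_
    split_ifs <;> norm_num
  have h2 : (∑ i ∈ Finset.range 8, if rcw i = ![0, 0] then (1 : ℤ) else 0 : ℤ) = 1 := by
    decide +kernel
  rw [h, h2]
  norm_num

theorem sq_val (x : Lat 2) : occ 4 sqw x ≠ 1 / 8 := by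
  have h : occ 4 sqw x = (1 / 4 : ℝ) * ((∑ i ∈ Finset.range 4,
      if sqw i = x then (1 : ℤ) else 0 : ℤ) : ℝ) := by
    unfold occ
    push_cast
    rw [Finset.mul_sum]
    refine Finset.sum_congr rfl fun i _ => ?_
    split_ifs <;> norm_num
  intro h2
  rw [h] at h2
  set m : ℤ := ∑ i ∈ Finset.range 4, if sqw i = x then (1 : ℤ) else 0
  have h3 : ((2 * m : ℤ) : ℝ) = ((1 : ℤ) : ℝ) := by
    push_cast
    linarith
  have h4 : 2 * m = 1 := by exact_mod_cast h3
  omega

/-- For `d = 2` and `β = γ / 4` (for every `γ > 0`) there are two maximisers of `⟨f, F f⟩` over `𝓕`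
which are not equivalent under the isometries of the lattice. -/
theorem result : ∀ γ : ℝ, 0 < γ → ∃ f f' : Lat 2 → ℝ,
    IsMaximiser 2 (γ / 4) γ f ∧ IsMaximiser 2 (γ / 4) γ f' ∧
      ∀ φ : Lat 2 → Lat 2, IsIsometry φ → f' ≠ fun x => f (φ x) := by
  intro γ hγ
  refine ⟨occ 4 sqw, occ 8 rcw, ⟨occ_inF (by norm_num) sqw_step sqw_per, fun g hg => ?_⟩,
    ⟨occ_inF (by norm_num) rcw_step rcw_per, fun g hg => ?_⟩, fun φ _ h => ?_⟩
  · rw [sq_form]
    exact form_le hγ hg
  · rw [rc_form]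
    exact form_le hγ hg
  · have h1 := congrFun h ![0, 0]
    rw [rc_val] at h1
    exact sq_val _ h1.symm

end Pool.Agent.Results.MP_840660_pr.TwoMaximisers
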